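import Pool.Agent.MP_1246c0_nt.H25.SpecG
import Pool.Agent.MP_1246c0_nt.R12.XFF
import Pool.Agent.MP_1246c0_nt.H79.DEC

/-! The governing field. -/

namespace Pool.Agent.MP_1246c0_nt.H25

open NumberField Finset Function Pool.Agent.MP_db5b97_nt.H85
open Pool.Agent.MP_1246c0_nt.H12

namespace GVA

variable {I : Type} {n : ℕ} {z : I → ℕ}

theorem chi0 {m : ℕ} {h : Ga} : chi m h = 0 ↔ h (sqr m) = sqr m := by
  rw [chi, kch, Int.cast_natCast]
  split_ifs with e <;> simp [e]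

theorem pix0 {h : Ga} : pix n z h = 0 ↔ kap n h = 0 ∧ ∀ i, chi (z i) h = 0 := by
  simp [pix, Prod.ext_iff, funext_iff]

theorem mem (hA : Ax0) (h : Ga) : h ∈ (kE n z).fixingSubgroup ↔ pix n z h = 0 := by
  rw [IntermediateField.mem_fixingSubgroup_iff, pix0]
  refine (IntermediateField.forall_mem_adjoin_smul_eq_self_iff ℚ h).trans ?_
  rw [Set.forall_mem_insert, Set.forall_mem_range]
  exact and_congr ((hA.kdef n h 0).trans (by rw [Nat.cast_zero])) (forall_congr' fun _ => chi0.symm)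

/-- the projection as a homomorphism -/
noncomputable def px (hA : Ax0) (n : ℕ) (z : I → ℕ) : Ga →* Multiplicative (Xi n I) :=
  MonoidHom.mk' (fun h => Multiplicative.ofAdd (pix n z h)) fun h h' =>
    Prod.ext (hA.kmul n h h') (funext fun i => hA.cmul (z i) h h')

theorem ker (hA : Ax0) : (kE n z).fixingSubgroup = (px hA n z).ker :=
  Subgroup.ext fun h => mem hA h

theorem sur [Fintype I] [DecidableEq I] {Φ : Frm} (hA : Ax1 Φ) {qz : I → ℕ} (hP : Pv z qz) :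
    Surjective (px hA.z n z) := by
  have h1 : ∀ ε : I → F2, Multiplicative.ofAdd ((0, ε) : Xi n I) ∈ (px hA.z n z).range := by
    intro ε
    have e : ((0, ε) : Xi n I) = ∑ i, (ε i).val • pix n z (Φ.sg (qz i)) := by
      refine Prod.ext ?_ (funext fun j => ?_)
      · simp [Prod.fst_sum, pix, fun i => hA.v.ksg n _ (hP.gd i).1]
      · simp [Prod.snd_sum, Finset.sum_apply, pix, -nsmul_eq_mul, hP.val,
          fun i j => hA.v.csg _ (z j) (hP.gd i) (by simpa using hP.pos j)]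
    rw [e, ofAdd_sum]
    exact prod_mem fun i _ => by
      rw [ofAdd_nsmul]
      exact Subgroup.pow_mem _ (MonoidHom.mem_range.2 ⟨Φ.sg (qz i), rfl⟩) _
  rintro ⟨k, ε⟩
  obtain ⟨h, e⟩ := h1 (ε - (pix n z (Φ.fr 2 ^ k.val)).2)
  refine ⟨h * Φ.fr 2 ^ k.val, ?_⟩
  rw [map_mul, e]
  exact Prod.ext ((zero_add _).trans (FF.ksec hA.z hA.v k)) (sub_add_cancel ε _)

theorem dist (hC : SCY) {F : Type} [Field F] [NumberField F] {t : 𝓞 F} {γ : F ≃ₐ[ℚ] F}
    (h : Cy F n t γ) (w : Pr F 2) (k : ℕ) (e : γ ^ k • t - t ∈ w.1.asIdeal) : γ ^ k = 1 :=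
  hC.dist F n t γ h w k ((val_lt_one_iff w.1 _).2 e)

/-- no inertia at a prime that does not divide the radicands -/
theorem inert (hC : SCY) (hL : SLIFT) (hQ : SKQ) {p : ℕ} (hp : p.Prime) (h2 : p ≠ 2)
    (hz : ∀ i, ¬p ∣ z i) {Q : Ideal OO} (hm : Q.IsMaximal) (hpQ : (p : OO) ∈ Q) {h : Ga}
    (H : ∀ x : OO, (x : Om) ∈ kE n z → h • x - x ∈ Q) : pix n z h = 0 := by
  refine pix0.2 ⟨?_, fun i => chi0.2 (by_contra fun hne => ?_)⟩
  · obtain ⟨θ, γ, hθ, hcy, hγ⟩ := hQ.cy n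
    obtain ⟨-, -, ho, hi⟩ := hC.gal _ n θ γ hcy
    obtain ⟨w, hw⟩ := hL.und (kQ n) Q hm
    have h1 : (p : 𝓞 (kQ n)) ∈ w.asIdeal := (hw _).2 (by rwa [map_natCast])
    obtain ⟨t, rfl⟩ : ∃ t : 𝓞 (kQ n), (t : kQ n) = θ := ⟨⟨θ, hi⟩, rfl⟩
    have h5 : γ ^ (kap n h).val • t - t ∈ w.asIdeal := by
      have := H (algebraMap (𝓞 (kQ n)) OO t)
        (hθ ▸ IntermediateField.subset_adjoin _ _ (Set.mem_insert _ _) :
          ((t : kQ n) : Om) ∈ kE n z)
      rw [hw, map_sub]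
      convert this using 2
      exact RingOfIntegers.ext (hγ h t).symm
    have h4 := orderOf_dvd_iff_pow_eq_one.2 (dist hC hcy
      ⟨w, fun e => h2 (FF.prime_eq w Nat.prime_two hp e h1)⟩ _ h5)
    rw [ho] at h4
    exact (ZMod.val_eq_zero _).1 (Nat.eq_zero_of_dvd_of_lt h4 (ZMod.val_lt _))
  · have e := sqr_mul (z i : Om)
    have hi : IsIntegral ℤ (sqr (z i : Om)) :=
      IsIntegral.of_pow two_pos (by rw [sq, e]; exact isIntegral_natCast _)
    have e' : h (sqr (z i : Om)) = -sqr (z i : Om) :=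
      (mul_self_eq_mul_self_iff.1 (by rw [← map_mul, e, map_natCast])).resolve_left hne
    have h3 := H ⟨_, hi⟩ (IntermediateField.subset_adjoin _ _ (.inr ⟨i, rfl⟩))
    have h4 : ((4 * z i : ℕ) : OO) ∈ Q := by
      convert Q.pow_mem_of_mem h3 2 two_pos using 1
      refine RingOfIntegers.ext ?_
      change ((4 * z i : ℕ) : Om) = (h (sqr (z i : Om)) - sqr (z i : Om)) ^ 2
      rw [e']
      push_cast
      linear_combination -4 * e
    obtain ⟨a, b, e⟩ : IsCoprime ((4 * z i : ℕ) : OO) p := Nat.Coprime.cast (Nat.Coprime.mul_left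
      (((Nat.coprime_primes Nat.prime_two hp).2 h2.symm).pow_left 2)
      ((hp.coprime_iff_not_dvd.2 (hz i)).symm))
    exact hm.ne_top ((Ideal.eq_top_iff_one _).2
      (e ▸ Q.add_mem (Q.mul_mem_left _ h4) (Q.mul_mem_left _ hpQ)))

theorem pull {L : IntermediateField ℚ Om} {x : OO} (hx : (x : Om) ∈ L) :
    ∃ y : 𝓞 L, algebraMap (𝓞 L) OO y = x :=
  ⟨⟨⟨x, hx⟩, (isIntegral_algebraMap_iff (algebraMap L Om).injective).1 x.isIntegral_coe⟩,
    RingOfIntegers.ext rfl⟩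

end GVA

open GVA

theorem rowGVA : OfGVA := by
  intro hC hL _ hQ I _ _ Φ n z qz hA hP
  have hk := ker (n := n) (z := z) hA.z
  have hn : (kE n z).fixingSubgroup.Normal := hk ▸ MonoidHom.normal_ker _
  have hg : IsGalois ℚ (kE n z) := (InfiniteGalois.normal_iff_isGalois (kE n z)).1 hn
  refine ⟨mem hA.z, sur hA hP, ⟨hn, IntermediateField.fixingSubgroup_isOpen _, fun h => ⟨n + 1, ?_⟩⟩,
    ?_, hg, fun p ⟨hp, hz⟩ => ?_⟩
  · rw [hk, MonoidHom.mem_ker, map_pow]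
    refine Prod.ext ?_ (funext fun i => ?_)
    · change 2 ^ (n + 1) • kap n h = 0
      rw [pow_succ', mul_smul, nsmul_eq_mul (2 ^ n), ZMod.natCast_self, zero_mul, smul_zero]
    · change 2 ^ (n + 1) • chi (z i) h = 0
      rw [pow_succ, mul_smul, nsmul_eq_mul 2, ZMod.natCast_self, zero_mul, smul_zero]
  · rw [IntermediateField.finrank_eq_fixingSubgroup_index, hk, Subgroup.index_ker,
      MonoidHom.range_eq_top.2 (sur hA hP), Subgroup.card_top]
    simp [Xi, F2]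
  have g0 : Gd 0 p := ⟨hp.1, hp.2.1, Nat.zero_le _⟩
  obtain ⟨hm, hpQ⟩ := Φ.mx p hp.1
  have hf : pix n z (Φ.fr p) = 0 := pix0.2 ⟨by
    obtain ⟨o, -, e⟩ := hA.v.kfr n p g0
    rw [e, ZMod.natCast_eq_zero_iff]
    exact (pow_dvd_pow 2 hp.2.2).mul_right _, fun i => (hA.v.cfr p _ g0 (hz i).1).trans (hz i).2⟩
  have hi := fun h => inert (n := n) hC hL hQ hp.1 hp.2.1 (fun i => (hz i).1) hm hpQ (h := h)
  obtain ⟨w, hw⟩ := hL.und (kE n z) _ hm
  have h1 : (p : 𝓞 (kE n z)) ∈ w.asIdeal := (hw _).2 (by rwa [map_natCast])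
  have ha : ∀ x : 𝓞 (kE n z), ∃ a : ℤ, x - a ∈ w.asIdeal := fun x => by
    refine DEC.int_of_pow hp.1 h1 ((hw _).2 ?_)
    have := Φ.ffr p g0 (algebraMap _ OO x)
    rw [show Φ.fr p • algebraMap _ OO x = algebraMap _ OO x from
      RingOfIntegers.ext ((mem hA.z _).2 hf x)] at this
    rw [map_sub, map_pow, ← neg_sub]
    exact neg_mem this
  obtain ⟨-, ψ, hψ⟩ := FF.res w p hp.1 h1 ha
  refine ⟨hf, hi _ fun x _ => Φ.isg p hp.1 x,
    ⟨w, fun e => hp.2.1 (FF.prime_eq w Nat.prime_two hp.1 e h1)⟩, ψ, hw, Ideal.ext hψ,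
    fun x hx => ?_, fun h H => hi h fun x hx => ?_⟩
  · have := DEC.lover hp.1 h1
    have := Fact.mk hp.1
    have h3 : w.asIdeal.inertia (kE n z ≃ₐ[ℚ] kE n z) = ⊥ := by
      refine (Subgroup.eq_bot_iff_forall _).2 fun g hg' => ?_
      have e := g.liftNormal_commutes Om
      refine AlgEquiv.ext fun y => Subtype.ext ((e y).symm.trans
        ((mem hA.z _).2 (hi _ fun x hx => ?_) y))
      obtain ⟨y, rfl⟩ := pull hx
      have := (hw _).1 (hg' y)
      rw [map_sub] at this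
      convert this using 2
      exact RingOfIntegers.ext (e y)
    have h4 := Ideal.card_inertia_eq_ramificationIdxIn (G := kE n z ≃ₐ[ℚ] kE n z)
      (Ideal.span {(p : ℤ)}) w.asIdeal
    have hl0 : (p : 𝓞 (kE n z)) ≠ 0 := by exact_mod_cast hp.1.ne_zero
    rw [h3, Subgroup.card_bot,
      Ideal.ramificationIdxIn_eq_ramificationIdx _ w.asIdeal (kE n z ≃ₐ[ℚ] kE n z),
      Ideal.IsDedekindDomain.ramificationIdx_eq_multiplicity (Ideal.span {(p : ℤ)}) _
        (Ideal.map_ne_bot_of_ne_bot (by simp [hp.1.ne_zero])), Ideal.map_span,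
      Set.image_singleton, map_natCast] at h4
    rw [show x = mkI p hl0 from Un.ext hx, ord_mkI, ← h4, Nat.cast_one]
  · obtain ⟨y, rfl⟩ := pull hx
    obtain ⟨a, ha⟩ := ha y
    have := (Φ.Q p).sub_mem (H _ ha) ((hw _).1 ha)
    rwa [map_sub, map_intCast, smul_sub, show h • (a : OO) = a from
      map_intCast (MulSemiringAction.toRingHom Ga OO h) a, sub_sub_sub_cancel_right] at this

end Pool.Agent.MP_1246c0_nt.H25
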