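import Pool.Agent.MP_1246c0_nt.H25.SpecN

/-! Almost all tuples of a cell are labellings. -/

namespace Pool.Agent.MP_1246c0_nt.H25

open Finset Function
open Pool.Agent.MP_1246c0_nt.H12

namespace LBC

/-- a graph over the other coordinates -/
theorem one {D : Type} [Fintype D] [DecidableEq D] {Y : ℕ} {U : D → ℕ} (o : D) (S : Finset (D → ℕ))
    (h : ∀ y ∈ S, ∀ o, Y < y o ∧ y o ≤ U o)
    (h' : ∀ y ∈ S, ∀ y' ∈ S, (∀ o', o' ≠ o → y o' = y' o') → y o = y' o) :
    Y * S.card ≤ ∏ o, U o := by
  have := card_le_card_of_injOn (s := Icc 1 Y ×ˢ S) (t := Fintype.piFinset fun o => Icc 1 (U o))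
    (fun q => update q.2 o q.1) (fun q hq => ?_) fun q hq q' hq' e => ?_
  · simpa using this
  · obtain ⟨h1, h2⟩ := mem_product.1 hq
    refine mem_coe.2 (Fintype.mem_piFinset.2 fun o' => mem_Icc.2 ?_)
    have := h _ h2 o'
    rw [mem_Icc] at h1
    rcases eq_or_ne o' o with rfl | ne
    · simp only [update_self]
      omega
    · simp only [update_of_ne ne]
      omega
  · have h1 : ∀ o', o' ≠ o → q.2 o' = q'.2 o' := fun o' ne => by
      simpa [update_of_ne ne] using congrFun e o'
    refine Prod.ext (by simpa using congrFun e o) (funext fun o' => ?_)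
    rcases eq_or_ne o' o with rfl | ne
    exacts [h' _ (mem_product.1 hq).2 _ (mem_product.1 hq').2 h1, h1 o' ne]

end LBC

theorem rowLBC : SLBC := by
  classical
  intro ι D _ _ _ _ e xs P Y i1 A U y0 he hi h0 hA
  have cs : ∀ i, (∃ o, e o = i) ∨ ∀ y, extend e y xs i = xs i := fun i =>
    (em _).imp_right fun h y => extend_apply' _ _ _ h
  let S : D × Option ι → Finset (D → ℕ) := fun q => (Fintype.piFinset A).filter fun y =>
    q.2 ≠ some (e q.1) ∧ y q.1 = q.2.elim P (extend e y xs)
  have h1 : ∀ q, Y * (S q).card ≤ ∏ o, U o := by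
    rintro ⟨o, t⟩
    refine LBC.one o _ (fun y hy o => (hA o _ (Fintype.mem_piFinset.1 (mem_filter.1 hy).1 o)).2)
      fun y hy y' hy' h => ?_
    obtain ⟨-, ne, e1⟩ := mem_filter.1 hy
    refine e1.trans (.trans ?_ (mem_filter.1 hy').2.2.symm)
    rcases t with _ | i
    · rfl
    rcases cs i with ⟨o', rfl⟩ | h2
    · exact (he.extend_apply ..).trans
        ((h o' fun e => ne (by rw [e])).trans (he.extend_apply ..).symm)
    · exact (h2 y).trans (h2 y').symm
  have h2 : (Fintype.piFinset A).filter (fun y => ¬Lb (extend e y xs) P i1) ⊆ univ.biUnion S := by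
    intro y hy
    obtain ⟨hy, hn⟩ := mem_filter.1 hy
    by_contra hc
    have h3 : ∀ o t, t ≠ some (e o) → y o ≠ t.elim P (extend e y xs) := fun o t ne e =>
      hc (mem_biUnion.2 ⟨(o, t), mem_univ _, mem_filter.2 ⟨hy, ne, e⟩⟩)
    have h4 : ∀ o i, extend e y xs (e o) = extend e y xs i → e o = i := fun o i h =>
      by_contra fun ne => h3 o (some i) (by simpa using Ne.symm ne)
        ((he.extend_apply ..).symm.trans h)
    refine hn ⟨fun i i' h => ?_, fun i => ?_, h0.prime, h0.md, fun i => ?_, ?_⟩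
    · rcases cs i with ⟨o, rfl⟩ | h5
      · exact h4 o i' h
      rcases cs i' with ⟨o, rfl⟩ | h6
      · exact (h4 o i h.symm).symm
      · exact h0.inj (by rw [h5, h6, ← h5 y, h, h6])
    · rcases cs i with ⟨o, rfl⟩ | h5
      · rw [he.extend_apply]
        exact (hA o _ (Fintype.mem_piFinset.1 hy o)).1
      · rw [h5, ← h5 y0]
        exact h0.odd i
    · rcases cs i with ⟨o, rfl⟩ | h5
      · rw [he.extend_apply]
        exact h3 o none (by simp)
      · rw [h5, ← h5 y0]
        exact h0.ne i
    · rcases cs i1 with ⟨o, h⟩ | h5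
      · exact absurd h (hi o)
      · rw [h5, ← h5 y0]
        exact h0.five
  have h3 : Y * ∏ o, (A o).card ≤
      Y * ((Fintype.piFinset A).filter fun y => Lb (extend e y xs) P i1).card +
        Fintype.card D * (Fintype.card ι + 1) * ∏ o, U o := by
    rw [← Fintype.card_piFinset, ← card_filter_add_card_filter_not
      (fun y => Lb (extend e y xs) P i1), mul_add]
    refine Nat.add_le_add_left ((Nat.mul_le_mul_left _ ((card_le_card h2).trans
      card_biUnion_le)).trans ?_) _
    rw [mul_sum]
    simpa using sum_le_card_nsmul univ _ _ fun q _ => h1 q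
  simp only [ind, sum_boole]
  exact_mod_cast h3

end Pool.Agent.MP_1246c0_nt.H25
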