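import Pool.Agent.MP_1246c0_nt.H25.SpecR
import Pool.Agent.MP_1246c0_nt.H84.RMN

/-! Row PAO: the choice of the parameters, by scaling. -/

namespace Pool.Agent.MP_1246c0_nt.H25

open Finset
open Pool.Agent.MP_1246c0_nt.H12

theorem rowPAO : SPAO := by
  intro C ε j1 hε
  obtain ⟨A, j0, c, hc, hj, hA, h⟩ := rowPAR (C / ε) (C / ε) j1
  refine ⟨A, j0, hj, hA, fun tp => ?_⟩
  have h1 : (1 / 500 : ℝ) ^ (A + 1) ≤ 1 := pow_le_one₀ (by norm_num) (by norm_num)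
  have h2 : ∑ a ∈ Ioc A tp, (C / 2 ^ 2 ^ nn tp j0 a + 2 * (C * (9 / 10) ^ 2 ^ nn tp j0 a)) =
      ε * (∑ a ∈ Ioc A tp, C / ε / 2 ^ 2 ^ nn tp j0 a +
        ∑ a ∈ Ioc A tp, 2 * (C / ε * (9 / 10) ^ 2 ^ nn tp j0 a)) := by
    rw [← sum_add_distrib, mul_sum]
    exact sum_congr rfl fun a _ => by field_simp
  rw [h2]
  exact mul_le_of_le_one_right hε.le (by linarith [h tp])

end Pool.Agent.MP_1246c0_nt.H25
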