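import Pool.Agent.MP_1246c0_nt.H25.SpecA
import Pool.Agent.MP_1246c0_nt.H52.TP

/-! Primes in the layers over a real quadratic field of odd radicand. -/

namespace Pool.Agent.MP_1246c0_nt.H25

open NumberField IsDedekindDomain Finset Pool.Agent.MP_db5b97_nt.H85
open Pool.Agent.MP_1246c0_nt.H12 Pool.Agent.MP_1246c0_nt.H12.TP

namespace TQP

section Cyc

variable {F : Type} [Field F] [NumberField F] {θ : F} {γ : F ≃ₐ[ℚ] F}

theorem map_tw (g : F ≃ₐ[ℚ] F) (x : F) : g (tw x) = tw (g x) := by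
  simp only [tw, map_sub, map_pow, map_ofNat]

theorem neg (hC : SCY) {n : ℕ} (h : Cy F (n + 1) θ γ) : (γ ^ 2 ^ n) θ = -θ := by
  obtain ⟨E, _, _, θ', γ', hE⟩ := hC.ex n
  obtain ⟨j, h1, -, h3⟩ := hC.emb E F n (n + 1) θ' γ' θ γ hE h n.le_succ
  rw [Nat.add_sub_cancel_left, Function.iterate_one] at h1
  have h4 := (h3 _).1 ⟨θ', h1⟩
  rw [map_tw, tw, tw, sub_left_inj, sq_eq_sq_iff_eq_or_eq_neg] at h4
  refine h4.resolve_left fun e => ?_
  have h5 : γ ^ 2 ^ n = 1 := AlgEquiv.ext fun x => by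
    have hx : x ∈ IntermediateField.adjoin ℚ {θ} := h.gen ▸ IntermediateField.mem_top
    have := (IntermediateField.adjoin_simple_le_iff (K := IntermediateField.fixedField
      (Subgroup.zpowers (γ ^ 2 ^ n)))).2 (fun s => zp_fix (g := γ ^ 2 ^ n) e s) hx
    exact this ⟨_, Subgroup.mem_zpowers _⟩
  rw [← orderOf_dvd_iff_pow_eq_one, (hC.gal F _ θ γ h).2.2.1,
    Nat.pow_dvd_pow_iff_le_right one_lt_two] at h5
  omega

theorem ex_sq (hC : SCY) {n : ℕ} (h : Cy F n θ γ) : ∃ t : F, t ^ 2 = 4 - θ ^ 2 := by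
  have h0 := h.root
  match n, h, h0 with
  | 0, _, h0 => exact ⟨2, by rw [show θ = 0 from h0]; norm_num⟩
  | 1, _, h0 =>
    have h1 : θ ^ 2 - 2 = 0 := h0
    exact ⟨θ, by linear_combination 2 * h1⟩
  | n + 2, h, _ =>
    obtain ⟨E, _, _, θ', γ', hE⟩ := hC.ex (n + 1)
    obtain ⟨j, h1, h2, -⟩ := hC.emb E F (n + 1) (n + 2) θ' γ' θ γ hE h (n + 1).le_succ
    rw [show n + 2 - (n + 1) = 1 by omega, Function.iterate_one] at h1
    let := j.toAlgebra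
    have h3 : j ((γ' ^ 2 ^ n) θ') = (γ ^ 2 ^ n) (j θ') := Cp.pow (g' := γ') (g := γ) h2 _ θ'
    rw [neg hC hE, map_neg, h1, map_tw, tw, tw] at h3
    exact ⟨(γ ^ 2 ^ n) θ, by linear_combination -h3⟩

/-- a principal power of a prime -/
theorem prin {w : Sp F} {x : 𝓞 F} {y : Un F} (e : y.val = x) (h1 : ord w y = 2)
    (h2 : ∀ u : Sp F, u ≠ w → ord u y = 0) : (w.asIdeal ^ 2).IsPrincipal := by
  have hw : w.valuation F (x : F) = WithZero.exp (-((2 : ℕ) : ℤ)) := by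
    rw [← e, val_eq_exp, h1]
    rfl
  refine ⟨x, le_antisymm (fun z hz => ?_) ?_⟩
  · obtain ⟨c, hc⟩ := HeightOneSpectrum.mem_integers_of_valuation_le_one (R := 𝓞 F) F
      ((z : F) / x) fun u => by
        have hx : 0 < u.valuation F (x : F) := by
          rw [← e]
          simp [zero_lt_iff]
        rw [map_div₀, div_le_one₀ hx]
        by_cases hu : u = w
        · rw [hu, hw, val_coe]
          exact (w.intValuation_le_pow_iff_mem z 2).2 hz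
        · rw [← e, (ord_eq_zero_iff _ _).1 (h2 u hu)]
          exact val_le_one u z
    refine Ideal.mem_span_singleton'.2 ⟨c, RingOfIntegers.ext ?_⟩
    have hx : (x : F) ≠ 0 := e ▸ y.val_ne
    have hc' : (c : F) = z / x := hc
    exact (eq_div_iff hx).1 hc'
  · refine (Submodule.span_singleton_le_iff_mem _ _).2 ((w.intValuation_le_pow_iff_mem x 2).1 ?_)
    rw [← val_coe, hw]

theorem two_le {w : Sp F} {x : 𝓞 F} {y : Un F} (e : y.val = x) (h : x ∈ w.asIdeal ^ 2) :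
    2 ≤ ord w y := by
  have := (w.intValuation_le_pow_iff_mem x 2).2 h
  rw [← val_coe, ← e, val_eq_exp, WithZero.exp_le_exp] at this
  omega

end Cyc

/-- the data of a layer together with the subfield fixed by `σ` -/
structure Cx (L F : Type) [Field L] [NumberField L] [Field F] [NumberField F] [Algebra F L]
    (d M : ℕ) (s θ : L) (σ γ : L ≃ₐ[ℚ] L) (θ' : F) (γ' : F ≃ₐ[ℚ] F) : Prop where
  tq : Tq L d M s θ σ γ
  cy : Cy F M θ' γ'
  th : algebraMap F L θ' = θ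
  cp : Cp γ' γ
  rg : ∀ y, y ∈ (algebraMap F L).range ↔ σ y = y
  os : orderOf σ = 2
  ss : σ * σ = 1
  og : orderOf γ = 2 ^ M

variable {L F : Type} [Field L] [NumberField L] [Field F] [NumberField F]
  {d M : ℕ} {s θ : L} {σ γ : L ≃ₐ[ℚ] L} {θ' : F} {γ' : F ≃ₐ[ℚ] F}

theorem cx (hC : SCY) (hT : STQ) (h : Tq L d M s θ σ γ) : ∃ (F : Type) (_ : Field F)
    (_ : NumberField F) (_ : Algebra F L) (θ' : F) (γ' : F ≃ₐ[ℚ] F), Cx L F d M s θ σ γ θ' γ' := by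
  obtain ⟨F, _, _, θ', γ', hF⟩ := hC.ex M
  obtain ⟨j, h1, h2, h3⟩ := hT.emb L F d M s θ σ γ θ' γ' h hF
  obtain ⟨-, -, h4, -, h6, h7, -⟩ := hT.gal L d M s θ σ γ h
  let := j.toAlgebra
  exact ⟨F, _, inferInstance, inferInstance, θ', γ', h, hF, h1, h2, h3,
    orderOf_eq_prime (by rw [sq, h4]) (by simpa using h7 0), h4, h6⟩

theorem s_int (h : Tq L d M s θ σ γ) : IsIntegral ℤ s :=
  IsIntegral.of_pow two_pos (h.sq ▸ by simpa using isIntegral_algebraMap (R := ℤ) (A := L) (x := d))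

/-- the element `(1 + s) / 2` -/
theorem half (h : Tq L d M s θ σ γ) {c : ℕ} (hc : d = 4 * c + 1) :
    ∃ ω : 𝓞 L, σ • ω = 1 - ω ∧ γ • ω = ω ∧ ω * (ω - 1) = c := by
  have hq : ((1 + s) / 2) ^ 2 - (1 + s) / 2 - c = 0 := by
    have := h.sq
    rw [hc] at this
    push_cast at this
    linear_combination this / 4
  have hi : IsIntegral ℤ ((1 + s) / 2) := by
    refine ⟨Polynomial.X ^ 2 - Polynomial.X - Polynomial.C (c : ℤ), by monicity!, ?_⟩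
    simpa [Polynomial.eval₂_sub] using hq
  obtain ⟨ω, hω⟩ : ∃ ω : 𝓞 L, (ω : L) = (1 + s) / 2 := ⟨⟨_, hi⟩, rfl⟩
  refine ⟨ω, RingOfIntegers.ext ?_, RingOfIntegers.ext ?_, RingOfIntegers.ext ?_⟩
  · show σ (ω : L) = 1 - (ω : L)
    rw [hω, map_div₀, map_add, map_one, map_ofNat, h.ss]
    ring
  · show γ (ω : L) = (ω : L)
    rw [hω, map_div₀, map_add, map_one, map_ofNat, h.gs]
  · rw [← hω] at hq
    simp only [map_mul, map_sub, map_one, map_natCast]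
    linear_combination hq

variable [Algebra F L]

theorem Cx.mem (h : Cx L F d M s θ σ γ θ' γ') (w : Sp L) (x : 𝓞 L) :
    x ∈ (σ • w).asIdeal ↔ σ • x ∈ w.asIdeal := by
  rw [mem_smul_iff, inv_eq_of_mul_eq_one_right h.ss]

theorem Cx.pair (h : Cx L F d M s θ σ γ θ' γ') {w w' : Sp L} (e : und F w' = und F w) :
    w' = w ∨ w' = σ • w := by
  have := gal h.rg
  obtain ⟨⟨_, k, rfl⟩, hs⟩ := trans (Subgroup.zpowers σ) e
  have h1 : w' = σ ^ k • w := hs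
  rw [← zpow_mod_orderOf, h.os] at h1
  rcases Int.emod_two_eq_zero_or_one k with h2 | h2
  · exact Or.inl (by simpa [h2] using h1)
  · exact Or.inr (by simpa [h2] using h1)

theorem Cx.over (hC : SCY) (h : Cx L F d M s θ σ γ θ' γ') {w w' : Sp L}
    (hw : ((2 : ℕ) : 𝓞 L) ∈ w.asIdeal) (hw' : ((2 : ℕ) : 𝓞 L) ∈ w'.asIdeal) :
    und F w' = und F w := by
  obtain ⟨-, v, h1, -⟩ := hC.two F M θ' γ' h.cy
  exact ((h1 _).1 ((NT2.nat_mem F 2 w').2 hw')).trans ((h1 _).1 ((NT2.nat_mem F 2 w).2 hw)).symm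

theorem Cx.card (hC : SCY) (h : Cx L F d M s θ σ γ θ' γ') : Nat.card (Pl L 2) ≤ 2 := by
  rcases isEmpty_or_nonempty (Pl L 2) with h0 | ⟨⟨w⟩⟩
  · simp
  · refine (Nat.card_le_card_of_surjective (fun b : Bool => cond b w (σ • w)) fun w' => ?_).trans
      (by simp)
    rcases h.pair (h.over hC w.2 w'.2) with e | e
    · exact ⟨true, Subtype.ext e.symm⟩
    · exact ⟨false, Subtype.ext e.symm⟩

/-- orders at a prime above two -/
theorem Cx.ords (hC : SCY) (h : Cx L F d M s θ σ γ θ' γ') {w : Sp L}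
    (hw : ((2 : ℕ) : 𝓞 L) ∈ w.asIdeal) : 2 + θ ≠ 0 ∧
    (∀ x : Un L, x.val = 2 + θ → ord w x = w.asIdeal.ramificationIdx (𝓞 F) ∧ dv L 2 x = 0) ∧
    (∀ x : Un L, x.val = 2 → ord w x = w.asIdeal.ramificationIdx (𝓞 F) * 2 ^ M) ∧
    ∀ y : 𝓞 F, algebraMap (𝓞 F) (𝓞 L) y ∈ w.asIdeal ∨
      algebraMap (𝓞 F) (𝓞 L) y - 1 ∈ w.asIdeal := by
  obtain ⟨h0, v, h1, h2, h3, h4⟩ := hC.two F M θ' γ' h.cy
  obtain rfl : und F w = v := (h1 _).1 ((NT2.nat_mem F 2 w).2 hw)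
  have e : algebraMap F L (2 + θ') = 2 + θ := by rw [map_add, h.th, map_ofNat]
  refine ⟨e ▸ (map_ne_zero _).2 h0, fun x hx => ?_, fun x hx => ?_, fun y => ?_⟩
  · obtain rfl : x = Un.inc F L (Un.mk _ h0) := Un.ext (hx.trans e.symm)
    obtain ⟨h5, h6⟩ := h2 (Un.mk _ h0) rfl
    refine ⟨by rw [NT2.ord_inc, h5, mul_one], Finsupp.ext fun u => ?_⟩
    rw [dv_apply, NT2.ord_inc]
    exact mul_eq_zero_of_right _ (DFunLike.congr_fun h6 (u.und F))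
  · obtain rfl : x = Un.inc F L (Un.mk 2 two_ne_zero) :=
      Un.ext (hx.trans (map_ofNat (algebraMap F L) 2).symm)
    rw [NT2.ord_inc, h3 _ rfl]
  · refine (h4 y).imp id fun h5 => ?_
    rwa [mem_und, map_sub, map_one] at h5

/-- a split prime above two has the residue field with two elements -/
theorem Cx.res (hC : SCY) (h : Cx L F d M s θ σ γ θ' γ') {w : Sp L}
    (hw : ((2 : ℕ) : 𝓞 L) ∈ w.asIdeal) (hne : σ • w ≠ w) (x : 𝓞 L) :
    x ∈ w.asIdeal ∨ x - 1 ∈ w.asIdeal := by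
  obtain ⟨a, ha, b, hb, hab⟩ := Submodule.mem_sup.1 ((Ideal.eq_top_iff_one _).1
    (w.isMaximal.coprime_of_ne (σ • w).isMaximal fun e' => hne (HeightOneSpectrum.ext e'.symm)))
  obtain ⟨y, hy⟩ := inv_int h.rg (y := x * b + σ • (x * b))
    (by rw [smul_add, smul_smul, h.ss, one_smul, add_comm])
  have h4 : σ • (x * b) ∈ w.asIdeal := (h.mem w _).1 (Ideal.mul_mem_left _ _ hb)
  have h5 := sub_mem (w.asIdeal.mul_mem_left x ha) h4
  have e' : x = x * a + x * b := by rw [← mul_add, hab, mul_one]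
  refine ((h.ords hC hw).2.2.2 y).imp (fun h6 => ?_) fun h6 => ?_
  · have e : x = x * a - σ • (x * b) + algebraMap (𝓞 F) (𝓞 L) y := by
      rw [hy]; linear_combination e'
    exact e ▸ add_mem h5 h6
  · have e : x - 1 = x * a - σ • (x * b) + (algebraMap (𝓞 F) (𝓞 L) y - 1) := by
      rw [hy]; linear_combination e'
    exact e ▸ add_mem h5 h6

/-- ramification at two -/
theorem Cx.three (hC : SCY) (h : Cx L F d M s θ σ γ θ' γ') {m : ℕ} (hm : d + 1 = 4 * m)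
    {w : Sp L} (hw : ((2 : ℕ) : 𝓞 L) ∈ w.asIdeal) : σ • w = w := by
  obtain ⟨h0, h1, -⟩ := h.ords hC hw
  obtain ⟨t', ht'⟩ := ex_sq hC h.cy
  have hθ : IsIntegral ℤ θ := h.th ▸ (hC.gal F M θ' γ' h.cy).2.2.2.algebraMap
  have ht : algebraMap F L t' ^ 2 = 4 - θ ^ 2 := by
    rw [← map_pow, ht', map_sub, map_pow, h.th, map_ofNat]
  generalize algebraMap F L t' = t at ht
  have h4 : IsIntegral ℤ (4 : L) := by simpa using isIntegral_algebraMap (R := ℤ) (A := L) (x := 4)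
  have hti : IsIntegral ℤ t := IsIntegral.of_pow two_pos (ht ▸ h4.sub (hθ.pow 2))
  obtain ⟨a, rfl⟩ : ∃ a : 𝓞 L, (a : L) = θ := ⟨⟨_, hθ⟩, rfl⟩
  obtain ⟨b, rfl⟩ : ∃ b : 𝓞 L, (b : L) = t := ⟨⟨_, hti⟩, rfl⟩
  have hs : s ^ 2 + 1 = 4 * m := by
    rw [h.tq.sq]
    exact_mod_cast hm
  have hq : (((a : L) + b * s) / 2) ^ 2 - a * ((a + b * s) / 2) + (1 - m * b ^ 2) = 0 := by
    linear_combination (b : L) ^ 2 / 4 * hs - ht / 4
  have hi : IsIntegral (𝓞 L) (((a : L) + b * s) / 2) := by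
    refine ⟨Polynomial.X ^ 2 - Polynomial.C a * Polynomial.X + Polynomial.C (1 - m * b ^ 2),
      by monicity!, ?_⟩
    simpa [Polynomial.eval₂_sub, Polynomial.eval₂_add] using hq
  obtain ⟨z, hz⟩ : ∃ z : 𝓞 L, (z : L) = ((a : L) + b * s) / 2 :=
    ⟨⟨_, isIntegral_trans _ hi⟩, rfl⟩
  have hz' : z ^ 2 - a * z + (1 - m * b ^ 2) = 0 := RingOfIntegers.ext (by
    rw [← hz] at hq
    simpa using hq)
  have hb : b ^ 2 = 4 - a ^ 2 := RingOfIntegers.ext (by simpa [map_ofNat] using ht)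
  have e0 : (Un.mk _ h0).val = ((2 + a : 𝓞 L) : L) := by simp [map_ofNat]
  have h2 : (2 : 𝓞 L) ∈ w.asIdeal := by exact_mod_cast hw
  have hr := ram_two h.rg h.os w
  have hp : 2 + a ∈ w.asIdeal := by
    by_contra hn
    have := (ord_eq_zero_iff w (Un.mk _ h0)).2 (e0 ▸ (val_eq_one_iff w _).2 hn)
    rw [(h1 _ rfl).1] at this
    rcases hr with e | ⟨e, -⟩ <;> simp [e] at this
  have h44 : (2 * 2 : 𝓞 L) ∈ w.asIdeal ^ 2 := sq w.asIdeal ▸ Ideal.mul_mem_mul h2 h2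
  have hn : 2 * 2 - (2 + a) ∈ w.asIdeal := sub_mem (w.asIdeal.mul_mem_left _ h2) hp
  have hb2 : (m : 𝓞 L) * b ^ 2 ∈ w.asIdeal ^ 2 := by
    have e : b ^ 2 = (2 * 2 - (2 + a)) * (2 + a) := by linear_combination hb
    rw [e, sq]
    exact Ideal.mul_mem_left _ _ (Ideal.mul_mem_mul hn hp)
  have hb1 := Ideal.pow_le_self two_ne_zero hb2
  have e1 : (1 - z) * (1 - (a - z)) = 2 * 2 - (2 + a) - m * b ^ 2 := by linear_combination -hz'
  have hzz : 1 - z ∈ w.asIdeal ∧ 1 - (a - z) ∈ w.asIdeal := by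
    rcases w.isPrime.mem_or_mem (e1 ▸ sub_mem hn hb1) with h5 | h5
    · refine ⟨h5, ?_⟩
      have e : 1 - (a - z) = m * b ^ 2 - (a - z) * (1 - z) := by linear_combination hz'
      exact e ▸ sub_mem hb1 (w.asIdeal.mul_mem_left _ h5)
    · refine ⟨?_, h5⟩
      have e : 1 - z = m * b ^ 2 - z * (1 - (a - z)) := by linear_combination hz'
      exact e ▸ sub_mem hb1 (w.asIdeal.mul_mem_left _ h5)
  have h5 : 2 + a ∈ w.asIdeal ^ 2 := by
    have e : 2 + a = 2 * 2 - m * b ^ 2 - (1 - z) * (1 - (a - z)) := by linear_combination e1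
    exact e ▸ sub_mem (sub_mem h44 hb2) (sq w.asIdeal ▸ Ideal.mul_mem_mul hzz.1 hzz.2)
  have h6 := two_le e0 h5
  rw [(h1 _ rfl).1] at h6
  exact fix_of_in (hr.resolve_left fun e => by omega).2

theorem Cx.fix (hC : SCY) (h : Cx L F d M s θ σ γ θ' γ') (hd : d % 8 ≠ 1) {w : Sp L}
    (hw : ((2 : ℕ) : 𝓞 L) ∈ w.asIdeal) : σ • w = w := by
  have ho := Nat.odd_iff.1 h.tq.odd
  by_cases h3 : d % 4 = 3
  · exact h.three hC (m := d / 4 + 1) (by omega) hw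
  · by_contra hne
    obtain ⟨ω, -, -, h1⟩ := half h.tq (c := 2 * (d / 8) + 1) (by omega)
    refine not_mem (s := 2 * (d / 8) + 1) hw (by simp) ?_
    rw [← h1]
    exact (h.res hC hw hne ω).elim (Ideal.mul_mem_right _ _) (Ideal.mul_mem_left _ _)

theorem Cx.non (hC : SCY) (h : Cx L F d M s θ σ γ θ' γ') (hd : d % 8 ≠ 1) (w : Pl L 2) :
    (w.1.asIdeal ^ 2).IsPrincipal := by
  have hf := h.fix hC hd w.2
  obtain ⟨h0, h1, -⟩ := h.ords hC w.2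
  obtain ⟨y, hy⟩ : ∃ y : Un L, y.val = 2 + θ := ⟨Un.mk _ h0, rfl⟩
  obtain ⟨h2, h3⟩ := h1 y hy
  have hθ : IsIntegral ℤ θ := h.th ▸ (hC.gal F M θ' γ' h.cy).2.2.2.algebraMap
  obtain ⟨a, rfl⟩ : ∃ a : 𝓞 L, (a : L) = θ := ⟨⟨_, hθ⟩, rfl⟩
  have h4 : ∀ u : Sp L, u ≠ w.1 → ord u y = 0 := fun u hu => by
    have h5 : ((2 : ℕ) : 𝓞 L) ∉ u.asIdeal := fun hu' => hu (uniq h.rg hf (h.over hC w.2 hu'))
    have h6 := dv_apply L 2 y ⟨u, h5⟩
    rw [h3] at h6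
    exact h6.symm
  rcases ram_two h.rg h.os w.1 with e | ⟨e, -⟩
  · refine prin (x := (2 + a) ^ 2) (y := 2 • y) (by simp [hy, map_ofNat]) ?_ fun u hu => ?_
    · rw [map_nsmul, h2, e]
      simp
    · rw [map_nsmul, h4 u hu, smul_zero]
  · exact prin (x := 2 + a) (y := y) (by simp [hy, map_ofNat]) (by rw [h2, e]; simp) h4

theorem Cx.spl (hC : SCY) (h : Cx L F d M s θ σ γ θ' γ') (hd : d % 8 = 1) (w : Pl L 2) :
    γ • w = w ∧ σ • w ≠ w ∧ (∀ x : Un L, x.val = 2 → ord w.1 x = 2 ^ M) ∧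
      (∀ x : Un L, x.val = 2 + θ → ord w.1 x = 1) ∧
      ∀ x : 𝓞 L, x ∈ w.1.asIdeal ∨ x - 1 ∈ w.1.asIdeal := by
  obtain ⟨u, h1, h2, h3⟩ : ∃ u : 𝓞 L, σ • u = 1 - u ∧ γ • u = u ∧ u ∈ w.1.asIdeal := by
    obtain ⟨ω, h1, h2, h3⟩ := half h.tq (c := 2 * (d / 8)) (by omega)
    rcases w.1.isPrime.mem_or_mem (h3 ▸ dvd_mem w.2 (dvd_mul_right _ _)) with h4 | h4
    · exact ⟨ω, h1, h2, h4⟩
    · refine ⟨1 - ω, by rw [smul_sub, smul_one, h1], by rw [smul_sub, smul_one, h2], ?_⟩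
      simpa using neg_mem h4
  have h4 : u ∉ (σ • w.1).asIdeal := fun h5 => by
    rw [h.mem, h1] at h5
    exact w.1.isPrime.ne_top ((Ideal.eq_top_iff_one _).2 (by simpa using add_mem h5 h3))
  have hne : σ • w.1 ≠ w.1 := fun e => h4 (e.symm ▸ h3)
  have he := (ram_two h.rg h.os w.1).resolve_right fun e => hne (fix_of_in e.2)
  obtain ⟨-, h5, h6, -⟩ := h.ords hC w.2
  refine ⟨Subtype.ext ((h.pair (h.over hC w.2 (γ • w).2)).resolve_right fun e => h4 ?_),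
    fun e => hne (congrArg Subtype.val e), fun x hx => by simpa [he] using h6 x hx,
    fun x hx => by simpa [he] using (h5 x hx).1, h.res hC w.2 hne⟩
  rw [← e]
  exact (mem_smul_iff γ w.1 u).2 ((inv_smul_eq_iff.2 h2.symm).symm ▸ h3)

theorem Cx.unr (hC : SCY) (h : Cx L F d M s θ σ γ θ' γ') (w : Pr L 2) (k : ℕ)
    (hg : ∀ x : 𝓞 L, γ ^ k • x - x ∈ w.1.asIdeal) : γ ^ k = 1 := by
  obtain ⟨-, -, h3, h4⟩ := hC.gal F M θ' γ' h.cy
  have h5 := hg (algebraMap (𝓞 F) (𝓞 L) ⟨θ', h4⟩)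
  rw [← (h.cp.pow k).int, ← map_sub, ← mem_und, ← val_lt_one_iff] at h5
  have h7 := hC.dist F M θ' γ' h.cy (w.und F) k h5
  rw [← orderOf_dvd_iff_pow_eq_one, h3] at h7
  rwa [← orderOf_dvd_iff_pow_eq_one, h.og]

theorem Cx.ram (hD : SDEC) (h : Cx L F d M s θ σ γ θ' γ') {l : ℕ} (hl : Gd 0 l) (hd : l ∣ d)
    {w : Sp L} (hw : (l : 𝓞 L) ∈ w.asIdeal) :
    σ • w = w ∧ ord w (Un.mk (l : L) (Nat.cast_ne_zero.2 hl.1.ne_zero)) = 2 := by
  obtain ⟨c, hc⟩ := hd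
  have hv := (NT2.nat_mem F l w).2 hw
  have hd0 : d ≠ 0 := by have := h.tq.big; omega
  have hc0 : c ≠ 0 := by rintro rfl; simp [hc] at hd0
  have hcl : c.Coprime l := (Nat.coprime_of_squarefree_mul (hc ▸ h.tq.sqf)).symm
  have h1 : ord w (Un.mk (l : L) (Nat.cast_ne_zero.2 hl.1.ne_zero)) =
      w.asIdeal.ramificationIdx (𝓞 F) := by
    rw [show Un.mk (l : L) (Nat.cast_ne_zero.2 hl.1.ne_zero) =
      Un.inc F L (Un.mk l (Nat.cast_ne_zero.2 hl.1.ne_zero)) from Un.ext (by simp), NT2.ord_inc,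
      (hD.dec F M θ' γ' h.cy l _ hl hv).2.2.1 _ (Un.val_mk _ _), mul_one]
  have hs : s ≠ 0 := fun e => hd0 (by simpa [e, eq_comm] using h.tq.sq)
  have h2 : ord w (2 • Un.mk s hs) = ord w (Un.mk (l : L) (Nat.cast_ne_zero.2 hl.1.ne_zero)) := by
    rw [show 2 • Un.mk s hs = Un.mk (l : L) (Nat.cast_ne_zero.2 hl.1.ne_zero) +
      Un.mk (c : L) (Nat.cast_ne_zero.2 hc0) from Un.ext (by simp [h.tq.sq, hc]), map_add,
      (ord_eq_zero_iff _ (Un.mk (c : L) _)).2 (val_coprime hw hcl), add_zero]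
  rw [map_nsmul, h1, nsmul_eq_mul] at h2
  rcases ram_two h.rg h.os w with h3 | ⟨h3, h4⟩
  · omega
  · exact ⟨fix_of_in h4, by rw [h1, h3]; rfl⟩

theorem Cx.five (hD : SDEC) (h : Cx L F d M s θ σ γ θ' γ') (P : ℕ) (hP : P.Prime)
    (h5 : P % 8 = 5) (hd : P ∣ d) : ∃ w0 : Pr L 2, (∀ v : Sp L, (P : 𝓞 L) ∈ v.asIdeal ↔ v = w0.1) ∧
      ∃ x : Un L, dv L 2 x = 2 • Finsupp.single w0 1 := by
  classical
  have hG : Gd 0 P := ⟨hP, by omega, Nat.zero_le _⟩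
  have hl : lev P = 0 := (hD.cls P (by omega) hP.one_lt).1.2 (Or.inr h5)
  have := Fact.mk hP
  obtain ⟨Q, hQ, h1⟩ := Ideal.exists_maximal_ideal_liesOver_of_isIntegral (S := 𝓞 L)
    (Ideal.span {(P : ℤ)})
  have h2 : (P : 𝓞 L) ∈ Q := by
    simpa using (Ideal.mem_of_liesOver Q (Ideal.span {(P : ℤ)}) P).1 (Ideal.subset_span rfl)
  have h3 : Q ≠ ⊥ := fun e => hP.ne_zero (by simpa [e] using h2)
  obtain ⟨w, hw⟩ : ∃ w : Sp L, (P : 𝓞 L) ∈ w.asIdeal := ⟨⟨Q, hQ.isPrime, h3⟩, h2⟩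
  obtain ⟨h6, h7⟩ := h.ram hD hG hd hw
  obtain ⟨h8, h9, -⟩ := hD.dec F M θ' γ' h.cy P _ hG ((NT2.nat_mem F P w).2 hw)
  have hu : ∀ v : Sp L, (P : 𝓞 L) ∈ v.asIdeal ↔ v = w := fun v => ⟨fun hv => by
    obtain ⟨j, hj⟩ := h9 _ ((NT2.nat_mem F P v).2 hv)
    exact uniq h.rg h6 (hj.trans ((h8 j).2 (by simp [hl]))), fun e => e ▸ hw⟩
  refine ⟨⟨w, not_mem hw ((Nat.coprime_primes Nat.prime_two hP).2 hG.2.1.symm)⟩, hu,
    Un.mk (P : L) (Nat.cast_ne_zero.2 hP.ne_zero), Finsupp.ext fun v => ?_⟩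
  rw [dv_apply, Finsupp.smul_apply, Finsupp.single_apply]
  split_ifs with e
  · rw [← e]
    exact h7
  · rw [smul_zero, ord_eq_zero_iff]
    simpa using (val_eq_one_iff v.1 P).2 fun hv => e (Subtype.ext ((hu _).1 hv).symm)

end TQP

open TQP in
theorem rowTQP : OfTQP := fun hC hD hT => by
  refine ⟨fun L _ _ d M s θ σ γ h => ?_, fun L _ _ d M s θ σ γ h => ?_,
    fun L _ _ d M s θ σ γ h => ?_, fun L _ _ d M s θ σ γ h => ?_,
    fun L _ _ d M s θ σ γ h => ?_⟩ <;> obtain ⟨F, _, _, _, θ', γ', H⟩ := TQP.cx hC hT h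
  exacts [H.card hC, H.non hC, H.spl hC, H.unr hC, H.five hD]

end Pool.Agent.MP_1246c0_nt.H25
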